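import Pool.Agent.H25.FU.Nil

/-!
# Project FULL: the part of the complex on which a projection is the identity
-/

set_option autoImplicit false

namespace Pool.Agent.H25.FU

open Pool.Agent.H47.ST

variable {F E : Type*} [Field F] [AddCommGroup E] [Module F E] {d τ ν : E →ₗ[F] E}

/-- the `P`-part of a graded submodule -/
def PS (P : E →ₗ[F] E) (B : ℕ → Submodule F E) : ℕ → Submodule F E := fun j =>
  B j ⊓ LinearMap.ker (P - LinearMap.id)

theorem mem_PS {P : E →ₗ[F] E} {B : ℕ → Submodule F E} {j : ℕ} {x : E} :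
    x ∈ PS P B j ↔ x ∈ B j ∧ P x = x := by
  unfold PS
  rw [Submodule.mem_inf, LinearMap.mem_ker, LinearMap.sub_apply, LinearMap.id_apply, sub_eq_zero]

/-- `P` is a projection which commutes with the operators. -/
structure PC (d τ ν P : E →ₗ[F] E) : Prop where
  pp : ∀ x, P (P x) = P x
  pd : ∀ x, P (d x) = d (P x)
  pt : ∀ x, P (τ x) = τ (P x)
  pn : ∀ x, P (ν x) = ν (P x)

/-- `P` preserves the graded submodule `B`. -/
def PSt (P : E →ₗ[F] E) (B : ℕ → Submodule F E) : Prop := ∀ j, ∀ x ∈ B j, P x ∈ B j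

theorem PS_le (P : E →ₗ[F] E) (B : ℕ → Submodule F E) (j : ℕ) : PS P B j ≤ B j := inf_le_left

theorem PS_mono (P : E →ₗ[F] E) {A B : ℕ → Submodule F E} {j : ℕ} (h : A j ≤ B j) :
    PS P A j ≤ PS P B j := inf_le_inf_right _ h

theorem PS_apply {P : E →ₗ[F] E} (hP : PC d τ ν P) {B : ℕ → Submodule F E} (hB : PSt P B) {j : ℕ}
    {x : E} (hx : x ∈ B j) : P x ∈ PS P B j := mem_PS.2 ⟨hB j x hx, hP.pp x⟩

theorem PS_pr {P : E →ₗ[F] E} (hP : PC d τ ν P) {B : ℕ → Submodule F E} (hB : PSt P B) {j : ℕ}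
    {x : E} (hx : x ∈ pr B j) : P x ∈ pr (PS P B) j := by
  cases j with
  | zero =>
    have h0 : x = 0 := by simpa [pr] using hx
    rw [h0, map_zero]
    exact Submodule.zero_mem _
  | succ j => exact PS_apply hP hB (j := j) hx

theorem PS_sub {P : E →ₗ[F] E} (hP : PC d τ ν P) {B : ℕ → Submodule F E} (hB : Sub d τ ν B) :
    Sub d τ ν (PS P B) where
  d j x hx := by
    rw [mem_PS] at hx ⊢
    exact ⟨hB.d j x hx.1, by rw [hP.pd, hx.2]⟩
  t j x hx := by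
    rw [mem_PS] at hx ⊢
    exact ⟨hB.t j x hx.1, by rw [hP.pt, hx.2]⟩
  n j x hx := by
    rw [mem_PS] at hx ⊢
    exact ⟨hB.n j x hx.1, by rw [hP.pn, hx.2]⟩

/-- exactness of the `P`-part -/
theorem HK_PS {P : E →ₗ[F] E} (hP : PC d τ ν P) {A B : ℕ → Submodule F E} (hA : PSt P A)
    (hB : PSt P B) {j : ℕ} (h : HK d B A j 0) : HK d (PS P B) (PS P A) j 0 := by
  refine RK_zero.2 fun x hx hdx => ?_
  rw [mem_PS] at hx hdx
  obtain ⟨y, hy, hxy⟩ := RK_zero.1 h x hx.1 hdx.1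
  refine ⟨P y, PS_pr hP hB hy, ?_⟩
  have h1 : x - d (P y) = P (x - d y) := by rw [map_sub, hP.pd, hx.2]
  rw [h1]
  exact PS_apply hP hA hxy

/-- `P` in every degree -/
def Pf (P : E →ₗ[F] E) (x : ℕ → E) : ℕ → E := fun j => P (x j)

theorem Pf_del {P : E →ₗ[F] E} (hP : PC d τ ν P) (k : ℕ) (x : ℕ → E) :
    Pf P (del d τ ν k x) = del d τ ν k (Pf P x) := by
  have h1 : ∀ m (x : E), P (the τ ν m x) = the τ ν m (P x) := by
    intro m x
    unfold the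
    split_ifs
    · exact hP.pt x
    · exact hP.pn x
  funext j
  cases j with
  | zero =>
    change P (del d τ ν k x 0) = _
    rw [TKb_zero, TKb_zero, h1]
    rfl
  | succ j =>
    change P (del d τ ν k x (j + 1)) = _
    rw [TKb_succ, TKb_succ, map_add, map_smul, hP.pd, h1]
    rfl

/-- Tate exactness of the `P`-part -/
theorem TK_PS {P : E →ₗ[F] E} (hP : PC d τ ν P) {A B : ℕ → Submodule F E} (hA : PSt P A)
    (hB : PSt P B) {k : ℕ} (h : TK d τ ν k B A 0) : TK d τ ν k (PS P B) (PS P A) 0 := by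
  refine RK_zero.2 fun x hx hdx => ?_
  obtain ⟨y, hy, hxy⟩ := RK_zero.1 h x (TKb_sq_mono (fun j => PS_le P B j) hx)
    (TKb_sq_mono (fun j => PS_le P A j) hdx)
  refine ⟨Pf P y, mem_sq.2 fun j => PS_apply hP hB (mem_sq.1 hy j), mem_sq.2 fun j => ?_⟩
  have h1 : (x - del d τ ν (k + 1) (Pf P y)) j = P ((x - del d τ ν (k + 1) y) j) := by
    rw [← Pf_del hP]
    change x j - P (del d τ ν (k + 1) y j) = P (x j - del d τ ν (k + 1) y j)
    rw [map_sub, (mem_PS.1 (mem_sq.1 hx j)).2]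
  rw [h1]
  exact PS_apply hP hA (mem_sq.1 hxy j)

/-- the projection `1 - (1 + H + … + H^(k-1)) / k` -/
noncomputable def Pk (H : E →ₗ[F] E) (k : ℕ) : E →ₗ[F] E :=
  LinearMap.id - (k : F)⁻¹ • ∑ i ∈ Finset.range k, H ^ i

theorem Pk_apply (H : E →ₗ[F] E) (k : ℕ) (x : E) :
    Pk H k x = x - (k : F)⁻¹ • ∑ i ∈ Finset.range k, (H ^ i) x := by
  unfold Pk
  rw [LinearMap.sub_apply, LinearMap.smul_apply, LinearMap.sum_apply, LinearMap.id_apply]

/-- `P (x - H x) = x - H x` -/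
theorem Pk_sub {H : E →ₗ[F] E} {k : ℕ} (hH : ∀ x, (H ^ k) x = x) (x : E) :
    Pk H k (x - H x) = x - H x := by
  rw [Pk_apply]
  have h1 : ∑ i ∈ Finset.range k, (H ^ i) (x - H x) = 0 := by
    have h2 : ∀ i, (H ^ i) (x - H x) = (H ^ i) x - (H ^ (i + 1)) x := by
      intro i
      rw [map_sub, pow_succ]
      rfl
    simp only [h2]
    rw [Finset.sum_range_sub' (fun i => (H ^ i) x), hH x, pow_zero]
    exact sub_self x
  rw [h1, smul_zero, sub_zero]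

theorem Pk_fix {H : E →ₗ[F] E} {k : ℕ} (hk : (k : F) ≠ 0) {x : E} (hx : Pk H k x = x) :
    x = (k : F)⁻¹ • ∑ i ∈ Finset.range k, (x - (H ^ i) x) := by
  rw [Pk_apply, sub_eq_self] at hx
  rw [Finset.sum_sub_distrib, smul_sub, hx, sub_zero, Finset.sum_const, Finset.card_range,
    ← Nat.cast_smul_eq_nsmul F, smul_smul, inv_mul_cancel₀ hk, one_smul]

theorem Pk_comm {H A : E →ₗ[F] E} (hA : ∀ x, H (A x) = A (H x)) (k : ℕ) (x : E) :
    Pk H k (A x) = A (Pk H k x) := by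
  have h1 : ∀ i, (H ^ i) (A x) = A ((H ^ i) x) := by
    intro i
    induction i with
    | zero => rfl
    | succ i ih =>
      rw [pow_succ', Module.End.mul_apply, Module.End.mul_apply, ih, hA]
  rw [Pk_apply, Pk_apply, map_sub, map_smul, map_sum]
  simp only [h1]

theorem Pk_idem {H : E →ₗ[F] E} {k : ℕ} (hk : (k : F) ≠ 0) (hH : ∀ x, (H ^ k) x = x) (x : E) :
    Pk H k (Pk H k x) = Pk H k x := by
  have h0 : ∀ y : E, H y = y → Pk H k y = 0 := by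
    intro y hy
    have h1 : ∀ i, (H ^ i) y = y := by
      intro i
      induction i with
      | zero => rfl
      | succ i ih => rw [pow_succ', Module.End.mul_apply, ih, hy]
    rw [Pk_apply]
    simp only [h1]
    rw [Finset.sum_const, Finset.card_range, ← Nat.cast_smul_eq_nsmul F, smul_smul,
      inv_mul_cancel₀ hk, one_smul, sub_self]
  have h1 : H (∑ i ∈ Finset.range k, (H ^ i) x) = ∑ i ∈ Finset.range k, (H ^ i) x := by
    rw [map_sum]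
    have h2 : ∀ i, H ((H ^ i) x) = (H ^ (i + 1)) x := by
      intro i
      rw [pow_succ', Module.End.mul_apply]
    simp only [h2]
    have h3 := Finset.sum_range_succ (fun i => (H ^ i) x) k
    have h4 := Finset.sum_range_succ' (fun i => (H ^ i) x) k
    rw [h3] at h4
    rw [hH x] at h4
    have h5 : (H ^ 0) x = x := rfl
    rw [h5] at h4
    exact (add_right_cancel h4).symm
  have h2 := h0 ((k : F)⁻¹ • ∑ i ∈ Finset.range k, (H ^ i) x) (by rw [map_smul, h1])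
  have h3 : Pk H k x = x - (k : F)⁻¹ • ∑ i ∈ Finset.range k, (H ^ i) x := Pk_apply H k x
  rw [h3, map_sub, h2, sub_zero, h3]

/-- slip of the `P`-part -/
theorem Slip_PS {H : E →ₗ[F] E} {k : ℕ} (hk : (k : F) ≠ 0)
    (hP : PC d τ ν (Pk H k)) {G G' : ℕ → Submodule F E}
    (hG' : PSt (Pk H k) G') (g₁ g₂ : ℕ)
    (h : ∀ j, ∀ x ∈ G j, d x = 0 → ∀ i, ∃ y ∈ pr G' j, x - (H ^ i) x = d y) :
    Slip d (PS (Pk H k) G) (PS (Pk H k) G') g₁ g₂ := by
  intro j _ _ x hx hdx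
  rw [mem_PS] at hx
  choose y hy hyx using h j x hx.1 hdx
  have h1 : x = d ((k : F)⁻¹ • ∑ i ∈ Finset.range k, y i) := by
    rw [map_smul, map_sum]
    simp only [← hyx]
    exact Pk_fix hk hx.2
  refine ⟨Pk H k ((k : F)⁻¹ • ∑ i ∈ Finset.range k, y i), PS_pr hP hG' ?_, ?_⟩
  · exact Submodule.smul_mem _ _ (Submodule.sum_mem _ fun i _ => hy i)
  · rw [← hP.pd, ← h1, hx.2]

/-- powers of a slipping operator slip -/
theorem slip_pow {T : E →ₗ[F] E} (hTd : ∀ x, T (d x) = d (T x)) {G G' : ℕ → Submodule F E}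
    (hG : PSt T G) {j : ℕ}
    (h : ∀ x ∈ G j, d x = 0 → ∃ y ∈ pr G' j, x - T x = d y) (i : ℕ) :
    ∀ x ∈ G j, d x = 0 → ∃ y ∈ pr G' j, x - (T ^ i) x = d y := by
  induction i with
  | zero =>
    intro x _ _
    refine ⟨0, Submodule.zero_mem _, ?_⟩
    rw [map_zero]
    exact sub_self x
  | succ i ih =>
    intro x hx hdx
    obtain ⟨y, hy, h1⟩ := h x hx hdx
    obtain ⟨z, hz, h2⟩ := ih (T x) (hG j x hx) (by rw [← hTd, hdx, map_zero])
    refine ⟨y + z, Submodule.add_mem _ hy hz, ?_⟩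
    rw [map_add, ← h1, ← h2, pow_succ, Module.End.mul_apply]
    abel

/-- the projection built from `H = T₀ ^ p` -/
theorem PC_Pk {T₀ : E →ₗ[F] E} (hd : ∀ x, T₀ (d x) = d (T₀ x)) (ht : ∀ x, T₀ (τ x) = τ (T₀ x))
    (hn : ∀ x, T₀ (ν x) = ν (T₀ x)) (p k : ℕ) (hk : (k : F) ≠ 0)
    (hT : ∀ x, (T₀ ^ (p * k)) x = x) : PC d τ ν (Pk (T₀ ^ p) k) := by
  have h1 : ∀ (A : E →ₗ[F] E), (∀ x, T₀ (A x) = A (T₀ x)) →
      ∀ x, (T₀ ^ p) (A x) = A ((T₀ ^ p) x) := by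
    intro A hA x
    have h2 : ∀ i, (T₀ ^ i) (A x) = A ((T₀ ^ i) x) := by
      intro i
      induction i with
      | zero => rfl
      | succ i ih => rw [pow_succ', Module.End.mul_apply, Module.End.mul_apply, ih, hA]
    exact h2 p
  refine ⟨Pk_idem hk fun x => ?_, Pk_comm (h1 d hd) k, Pk_comm (h1 τ ht) k, Pk_comm (h1 ν hn) k⟩
  rw [← pow_mul]
  exact hT x

theorem PSt_pow {T₀ : E →ₗ[F] E} {B : ℕ → Submodule F E} (hB : PSt T₀ B) (i : ℕ) :
    PSt (T₀ ^ i) B := by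
  induction i with
  | zero => exact fun j x hx => hx
  | succ i ih =>
    intro j x hx
    rw [pow_succ', Module.End.mul_apply]
    exact hB j _ (ih j x hx)

theorem PSt_Pk {T₀ : E →ₗ[F] E} {B : ℕ → Submodule F E} (hB : PSt T₀ B) (p k : ℕ) :
    PSt (Pk (T₀ ^ p) k) B := by
  intro j x hx
  rw [Pk_apply]
  refine Submodule.sub_mem _ hx (Submodule.smul_mem _ _ (Submodule.sum_mem _ fun i _ => ?_))
  rw [← pow_mul]
  exact PSt_pow hB _ j x hx

/-- **Tate exactness of the `P`-part of the thin band.** `T₀` generates the whole cyclic group,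
its action on the cohomology of the levels is trivial up to a slip. -/
theorem band_PS (h : Ops d τ ν) (Fi : ℕ → ℕ → Submodule F E)
    (hsub : ∀ i, Sub d τ ν (Fi i)) (hmono : ∀ i j, Fi (i + 1) j ≤ Fi i j)
    (J : ℕ) (hJ : ∀ j, J ≤ j → Fi 0 j = ⊥) {g₁ g₂ : ℕ} (h12 : g₁ < g₂)
    {T₀ : E →ₗ[F] E} (hd : ∀ x, T₀ (d x) = d (T₀ x)) (ht : ∀ x, T₀ (τ x) = τ (T₀ x))
    (hn : ∀ x, T₀ (ν x) = ν (T₀ x)) (hT₀ : ∀ i, PSt T₀ (Fi i)) {p k : ℕ} (hk : (k : F) ≠ 0)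
    (hT : ∀ x, (T₀ ^ (p * k)) x = x) (s t : ℕ → ℕ)
    (hs : ∀ i, s (i + 1) ≤ s i) (hts : ∀ i, t (i + 1) ≤ t i) (i₀ : ℕ) (ha : s 0 ≤ i₀)
    (hb : i₀ < t (g₂ - g₁))
    (hslips : ∀ i < g₂ - g₁, ∀ j, ∀ x ∈ Fi (s i) j, d x = 0 →
      ∃ y ∈ pr (Fi (s (i + 1))) j, x - T₀ x = d y)
    (hslipt : ∀ i < g₂ - g₁, ∀ j, ∀ x ∈ Fi (t i) j, d x = 0 →
      ∃ y ∈ pr (Fi (t (i + 1))) j, x - T₀ x = d y)
    (hband : ∀ i, s (g₂ - g₁) ≤ i → i < t 0 → i ≠ i₀ →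
      (∀ j, g₁ ≤ j → j ≤ g₂ → HK d (Fi i) (Fi (i + 1)) j 0) ∨
      ((∀ j, (j ≤ g₁ ∨ g₂ ≤ j) → HK d (Fi i) (Fi (i + 1)) j 0) ∧
        ∀ k, TK d τ ν k (Fi i) (Fi (i + 1)) 0))
    (hi₀ : ∀ j, (j ≤ g₁ ∨ g₂ ≤ j) → HK d (Fi i₀) (Fi (i₀ + 1)) j 0) (m : ℕ) :
    TK d τ ν m (PS (Pk (T₀ ^ p) k) (Fi i₀)) (PS (Pk (T₀ ^ p) k) (Fi (i₀ + 1))) 0 := by
  have hP := PC_Pk hd ht hn p k hk hT
  have hPS : ∀ i, PSt (Pk (T₀ ^ p) k) (Fi i) := fun i => PSt_Pk (hT₀ i) p k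
  have hsl : ∀ a b, (∀ j, ∀ x ∈ Fi a j, d x = 0 → ∃ y ∈ pr (Fi b) j, x - T₀ x = d y) →
      Slip d (PS (Pk (T₀ ^ p) k) (Fi a)) (PS (Pk (T₀ ^ p) k) (Fi b)) g₁ g₂ := by
    intro a b hab
    refine Slip_PS hk hP (hPS b) g₁ g₂ fun j x hx hdx i => ?_
    rw [← pow_mul]
    exact slip_pow hd (hT₀ a) (hab j) (p * i) x hx hdx
  refine thin_band_slip h (fun i => PS (Pk (T₀ ^ p) k) (Fi i)) (fun i => PS_sub hP (hsub i))
    (fun i j => PS_mono _ (hmono i j)) J (fun j hj => ?_) h12 s t hs hts i₀ ha hb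
    (fun i hi => hsl _ _ (hslips i hi)) (fun i hi => hsl _ _ (hslipt i hi))
    (fun i h1 h2 h3 => ?_) (fun j hj => HK_PS hP (hPS _) (hPS _) (hi₀ j hj)) m
  · rw [eq_bot_iff, ← hJ j hj]
    exact PS_le _ _ j
  · rcases hband i h1 h2 h3 with h4 | ⟨h4, h5⟩
    · exact Or.inl fun j e1 e2 => HK_PS hP (hPS _) (hPS _) (h4 j e1 e2)
    · exact Or.inr ⟨fun j e1 => HK_PS hP (hPS _) (hPS _) (h4 j e1),
        fun k => TK_PS hP (hPS _) (hPS _) (h5 k)⟩

end Pool.Agent.H25.FU
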