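import Pool.Agent.H75.TH.Alg

/-!
# Project FULL: nilpotence in the truncated Tate complex

If cocycles of a level are coboundaries of a slightly lower level (a slip), then the cocycles of
the truncated Tate complex are coboundaries after at most `g₂ - g₁` slips.
-/

set_option autoImplicit false

namespace Pool.Agent.H25.FU

open Pool.Agent.H47.ST
open Pool.Agent.H75.TH (band_back dead_TK)

variable {F E : Type*} [Field F] [AddCommGroup E] [Module F E] {d τ ν : E →ₗ[F] E}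

/-- cocycles of `G` in the degrees `g₁ < j ≤ g₂` are coboundaries in `G'` -/
def Slip (d : E →ₗ[F] E) (G G' : ℕ → Submodule F E) (g₁ g₂ : ℕ) : Prop :=
  ∀ j, g₁ < j → j ≤ g₂ → ∀ x ∈ G j, d x = 0 → ∃ y ∈ pr G' j, x = d y

/-- **Nilpotence.** -/
theorem slip_core (h : Ops d τ ν) {V : ℕ → Submodule F E} (hV : Sub d τ ν V)
    (G : ℕ → ℕ → Submodule F E) (hG : ∀ i, Sub d τ ν (G i)) (hGV : ∀ i j, G i j ≤ V j)
    (hmono : ∀ i j, G i j ≤ G (i + 1) j) {g₁ g₂ : ℕ} (h12 : g₁ < g₂)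
    (hslip : ∀ i < g₂ - g₁, Slip d (G i) (G (i + 1)) g₁ g₂) (k : ℕ) {x : ℕ → E}
    (hx : x ∈ sq (trf d V g₁ g₂ (G 0))) (hdx : del d τ ν k x ∈ sq (trun d V g₁)) :
    ∃ y ∈ sq (trf d V g₁ g₂ (G (g₂ - g₁))), x - del d τ ν (k + 1) y ∈ sq (trun d V g₁) := by
  have hS : ∀ i, Sub d τ ν (trf d V g₁ g₂ (G i)) := fun i => hV.trf h (hG i) g₁ g₂
  have hM : ∀ i j, trf d V g₁ g₂ (G i) j ≤ trf d V g₁ g₂ (G (i + 1)) j := fun i j =>
    Trunc_trf_mono (fun j => hmono i j) g₁ g₂ j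
  have hM0 : ∀ i j, trf d V g₁ g₂ (G 0) j ≤ trf d V g₁ g₂ (G i) j := by
    intro i j
    induction i with
    | zero => exact le_rfl
    | succ i ih => exact ih.trans (hM i j)
  -- the claim: after `i` steps all components of degree `> g₂ - i` are zero
  have key : ∀ i ≤ g₂ - g₁, ∃ y ∈ sq (trf d V g₁ g₂ (G i)),
      ∀ j, g₂ - i < j → (x - del d τ ν (k + 1) y) j = 0 := by
    intro i
    induction i with
    | zero =>
      intro _
      refine ⟨0, Submodule.zero_mem _, fun j hj => ?_⟩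
      rw [map_zero, sub_zero]
      have h1 := mem_sq.1 hx j
      have h2 : trf d V g₁ g₂ (G 0) j = ⊥ := by
        unfold trf
        rw [Trunc_gt (show g₂ < j by omega), Trunc_gt (show g₁ < j by omega)]
        simp
      rwa [h2, Submodule.mem_bot] at h1
    | succ i ih =>
      intro hi
      obtain ⟨y, hy, hy0⟩ := ih (by omega)
      obtain ⟨m, hm⟩ : ∃ m, g₂ - i = m + 1 := ⟨g₂ - i - 1, by omega⟩
      set x' := x - del d τ ν (k + 1) y with hx'
      have hx's : x' ∈ sq (trf d V g₁ g₂ (G i)) :=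
        Submodule.sub_mem _ (mem_sq.2 fun j => hM0 i j (mem_sq.1 hx j)) ((hS i).del (k + 1) hy)
      have hdx' : del d τ ν k x' ∈ sq (trun d V g₁) := by
        rw [hx', map_sub, TKb_del_del' h, sub_zero]
        exact hdx
      -- the component of degree `m + 1` is a cocycle
      have h1 : d (x' (m + 1)) = 0 := by
        have h2 := mem_sq.1 hdx' (m + 1 + 1)
        rw [Trunc_gt (show g₁ < m + 1 + 1 by omega), Submodule.mem_bot, TKb_succ,
          hy0 (m + 1 + 1) (by omega), map_zero, smul_zero, add_zero] at h2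
        exact h2
      have h3 : x' (m + 1) ∈ G i (m + 1) := by
        have h4 := mem_sq.1 hx's (m + 1)
        unfold trf at h4
        rw [Trunc_gt (show g₁ < m + 1 by omega), bot_sup_eq] at h4
        exact h4.2
      obtain ⟨z, hz, hzx⟩ := hslip i (by omega) (m + 1) (by omega) (by omega) _ h3 h1
      have hz' : z ∈ G (i + 1) m := hz
      refine ⟨y + Pi.single m z, ?_, fun j hj => ?_⟩
      · refine Submodule.add_mem _ (mem_sq.2 fun j => hM i j (mem_sq.1 hy j))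
          (mem_sq.2 fun j => ?_)
        by_cases hj : j = m
        · subst hj
          rw [Pi.single_eq_same]
          refine Submodule.mem_sup_right ⟨?_, hz'⟩
          rw [Trunc_lt (show j < g₂ by omega)]
          exact hGV _ _ hz'
        · rw [Pi.single_eq_of_ne hj]
          exact Submodule.zero_mem _
      · rw [map_add]
        have h5 : (x - (del d τ ν (k + 1) y + del d τ ν (k + 1) (Pi.single m z))) j =
            x' j - del d τ ν (k + 1) (Pi.single m z) j := by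
          rw [hx']
          simp only [Pi.sub_apply, Pi.add_apply]
          abel
        rw [h5, TKb_single]
        by_cases hj1 : j = m + 1
        · subst hj1
          rw [Pi.single_eq_of_ne (show m + 1 ≠ m by omega), Pi.single_eq_same, zero_add, hzx,
            sub_self]
        · rw [Pi.single_eq_of_ne (show j ≠ m by omega), Pi.single_eq_of_ne hj1, add_zero, sub_zero]
          exact hy0 j (by omega)
  obtain ⟨y, hy, hy0⟩ := key (g₂ - g₁) le_rfl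
  refine ⟨y, hy, mem_sq.2 fun j => ?_⟩
  set x' := x - del d τ ν (k + 1) y with hx'
  have hx's : x' ∈ sq (trf d V g₁ g₂ (G (g₂ - g₁))) :=
    Submodule.sub_mem _ (mem_sq.2 fun j => hM0 _ j (mem_sq.1 hx j)) ((hS _).del (k + 1) hy)
  have hdx' : del d τ ν k x' ∈ sq (trun d V g₁) := by
    rw [hx', map_sub, TKb_del_del' h, sub_zero]
    exact hdx
  have hxV : x' j ∈ V j := Trunc_trf_le g₁ g₂ j (mem_sq.1 hx's j)
  rcases lt_trichotomy j g₁ with hj | hj | hj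
  · rw [Trunc_lt hj]
    exact hxV
  · subst hj
    rw [Trunc_eq]
    refine ⟨hxV, LinearMap.mem_ker.2 ?_⟩
    have h2 := mem_sq.1 hdx' (j + 1)
    rw [Trunc_gt (show j < j + 1 by omega), Submodule.mem_bot, TKb_succ,
      hy0 (j + 1) (by omega), map_zero, smul_zero, add_zero] at h2
    exact h2
  · rw [hy0 j (by omega)]
    exact Submodule.zero_mem _

/-- **Slips make the truncated level exact**, if the band of the slips is Tate exact. -/
theorem slip_TK (h : Ops d τ ν) {V : ℕ → Submodule F E} (hV : Sub d τ ν V)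
    (G : ℕ → ℕ → Submodule F E) (hG : ∀ i, Sub d τ ν (G i)) (hGV : ∀ i j, G i j ≤ V j)
    (hmono : ∀ i j, G i j ≤ G (i + 1) j) {g₁ g₂ : ℕ} (h12 : g₁ < g₂)
    (hslip : ∀ i < g₂ - g₁, Slip d (G i) (G (i + 1)) g₁ g₂)
    (hband : ∀ k, TK d τ ν k (trf d V g₁ g₂ (G (g₂ - g₁))) (trf d V g₁ g₂ (G 0)) 0) (k : ℕ) :
    TK d τ ν k (trf d V g₁ g₂ (G 0)) (trun d V g₁) 0 := by
  refine RK_zero.2 fun x hx hdx => ?_
  obtain ⟨y, hy, hxy⟩ := slip_core h hV G hG hGV hmono h12 hslip k hx hdx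
  have hL : sq (trun d V g₁) ≤ sq (trf d V g₁ g₂ (G 0)) := TKb_sq_mono fun j => le_sup_left
  have h1 : del d τ ν (k + 1) y ∈ sq (trf d V g₁ g₂ (G 0)) := by
    have h2 : del d τ ν (k + 1) y = x - (x - del d τ ν (k + 1) y) := by abel
    rw [h2]
    exact Submodule.sub_mem _ hx (hL hxy)
  obtain ⟨z, hz, hyz⟩ := RK_zero.1 (hband (k + 1)) y hy h1
  refine ⟨y - del d τ ν (k + 1 + 1) z, hyz, ?_⟩
  rw [map_sub, TKb_del_del' h, sub_zero]
  exact hxy

/-- **Thin band between two levels which are Tate exact after truncation.** -/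
theorem thin_band_TK (h : Ops d τ ν) (Fi : ℕ → ℕ → Submodule F E)
    (hsub : ∀ i, Sub d τ ν (Fi i)) (hmono : ∀ i j, Fi (i + 1) j ≤ Fi i j)
    (J : ℕ) (hJ : ∀ j, J ≤ j → Fi 0 j = ⊥) {g₁ g₂ : ℕ} (h12 : g₁ < g₂)
    (a b i₀ : ℕ) (ha : a ≤ i₀) (hb : i₀ < b)
    (hdA : ∀ k, TK d τ ν k (trf d (Fi 0) g₁ g₂ (Fi a)) (trun d (Fi 0) g₁) 0)
    (hdB : ∀ k, TK d τ ν k (trf d (Fi 0) g₁ g₂ (Fi b)) (trun d (Fi 0) g₁) 0)
    (hband : ∀ i, a ≤ i → i < b → i ≠ i₀ →
      (∀ j, g₁ ≤ j → j ≤ g₂ → HK d (Fi i) (Fi (i + 1)) j 0) ∨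
      ((∀ j, (j ≤ g₁ ∨ g₂ ≤ j) → HK d (Fi i) (Fi (i + 1)) j 0) ∧
        ∀ k, TK d τ ν k (Fi i) (Fi (i + 1)) 0))
    (hi₀ : ∀ j, (j ≤ g₁ ∨ g₂ ≤ j) → HK d (Fi i₀) (Fi (i₀ + 1)) j 0) (k : ℕ) :
    TK d τ ν k (Fi i₀) (Fi (i₀ + 1)) 0 := by
  have hle : ∀ i n j, Fi (i + n) j ≤ Fi i j := by
    intro i n j
    induction n with
    | zero => exact le_rfl
    | succ n ih => exact (hmono (i + n) j).trans ih
  have hle' : ∀ i i' j, i ≤ i' → Fi i' j ≤ Fi i j := by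
    intro i i' j hii
    obtain ⟨n, rfl⟩ := Nat.exists_eq_add_of_le hii
    exact hle i n j
  have hV : ∀ i j, Fi i j ≤ Fi 0 j := fun i j => hle' 0 i j (Nat.zero_le i)
  have hS : ∀ i, Sub d τ ν (trf d (Fi 0) g₁ g₂ (Fi i)) := fun i =>
    (hsub 0).trf h (hsub i) g₁ g₂
  have hT : ∀ i i' j, i ≤ i' →
      trf d (Fi 0) g₁ g₂ (Fi i') j ≤ trf d (Fi 0) g₁ g₂ (Fi i) j := fun i i' j hii =>
    Trunc_trf_mono (fun j => hle' i i' j hii) g₁ g₂ j
  have hab : ∀ k, TK d τ ν k (trf d (Fi 0) g₁ g₂ (Fi a)) (trf d (Fi 0) g₁ g₂ (Fi b)) 0 :=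
    fun k => TK.quot h ((hsub 0).trun h g₁) (fun j => le_sup_left)
      (fun j => hT a b j (by omega)) (hdB (k + 1)) (hdA k)
  -- the other bands
  have hband' : ∀ i, a ≤ i → i < b → i ≠ i₀ → ∀ k,
      TK d τ ν k (trf d (Fi 0) g₁ g₂ (Fi i)) (trf d (Fi 0) g₁ g₂ (Fi (i + 1))) 0 := by
    intro i h1 h2 h3 k
    rcases hband i h1 h2 h3 with h4 | ⟨h4, h5⟩
    · exact TK_band_out h (hsub 0) (hsub i) (hsub (i + 1)) (hmono i) (hV i) J hJ h12 h4 k
    · exact TK_band_in h (hsub 0) (hsub i) (hsub (i + 1)) (hmono i) (hV i) J hJ h12 h4 h5 k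
  have hchain : ∀ n i, a ≤ i → i + n ≤ b → (∀ i', i ≤ i' → i' < i + n → i' ≠ i₀) → ∀ k,
      TK d τ ν k (trf d (Fi 0) g₁ g₂ (Fi i)) (trf d (Fi 0) g₁ g₂ (Fi (i + n))) 0 := by
    intro n
    induction n with
    | zero => intro i _ _ _ k; exact TKb_refl _ k
    | succ n ih =>
      intro i h1 h2 h3 k
      have h4 := ih i h1 (by omega) (fun i' h5 h6 => h3 i' h5 (by omega)) k
      have h5 := hband' (i + n) (by omega) (by omega) (h3 (i + n) (by omega) (by omega)) k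
      have h6 := TK.trans h (hS (i + n + 1)) (fun j => hT (i + n) (i + n + 1) j (by omega))
        (fun j => hT i (i + n) j (by omega)) h4 h5
      exact h6
  have hc1 : ∀ k, TK d τ ν k (trf d (Fi 0) g₁ g₂ (Fi a)) (trf d (Fi 0) g₁ g₂ (Fi i₀)) 0 := by
    intro k
    have h1 := hchain (i₀ - a) a le_rfl (by omega) (fun i' h5 h6 => by omega) k
    rwa [show a + (i₀ - a) = i₀ by omega] at h1
  have hc2 : ∀ k, TK d τ ν k (trf d (Fi 0) g₁ g₂ (Fi (i₀ + 1)))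
      (trf d (Fi 0) g₁ g₂ (Fi b)) 0 := by
    intro k
    have h1 := hchain (b - (i₀ + 1)) (i₀ + 1) (by omega) (by omega)
      (fun i' h5 h6 => by omega) k
    rwa [show i₀ + 1 + (b - (i₀ + 1)) = b by omega] at h1
  have h1 : ∀ k, TK d τ ν k (trf d (Fi 0) g₁ g₂ (Fi i₀)) (trf d (Fi 0) g₁ g₂ (Fi b)) 0 :=
    fun k => TK.sub h (hS i₀) (fun j => hT i₀ b j hb.le) (fun j => hT a i₀ j ha)
      (hc1 (k + 1)) (hab k)
  have h2 : ∀ k, TK d τ ν k (trf d (Fi 0) g₁ g₂ (Fi i₀))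
      (trf d (Fi 0) g₁ g₂ (Fi (i₀ + 1))) 0 :=
    fun k => TK.quot h (hS b) (fun j => hT (i₀ + 1) b j hb) (fun j => hT i₀ (i₀ + 1) j (by omega))
      (hc2 (k + 1)) (h1 k)
  exact band_back h (hsub 0) (hsub i₀) (hsub (i₀ + 1)) (hmono i₀) (hV i₀) J hJ h12 hi₀ h2 k

/-- a chain of levels between `a` and `b` in which all bands are exact after truncation -/
theorem chain_TK (h : Ops d τ ν) (Fi : ℕ → ℕ → Submodule F E)
    (hsub : ∀ i, Sub d τ ν (Fi i)) (hmono : ∀ i j, Fi (i + 1) j ≤ Fi i j)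
    (J : ℕ) (hJ : ∀ j, J ≤ j → Fi 0 j = ⊥) {g₁ g₂ : ℕ} (h12 : g₁ < g₂) (a b : ℕ) (hab : a ≤ b)
    (hband : ∀ i, a ≤ i → i < b →
      (∀ j, g₁ ≤ j → j ≤ g₂ → HK d (Fi i) (Fi (i + 1)) j 0) ∨
      ((∀ j, (j ≤ g₁ ∨ g₂ ≤ j) → HK d (Fi i) (Fi (i + 1)) j 0) ∧
        ∀ k, TK d τ ν k (Fi i) (Fi (i + 1)) 0)) (k : ℕ) :
    TK d τ ν k (trf d (Fi 0) g₁ g₂ (Fi a)) (trf d (Fi 0) g₁ g₂ (Fi b)) 0 := by
  have hle' : ∀ i i' j, i ≤ i' → Fi i' j ≤ Fi i j := by
    intro i i' j hii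
    induction i', hii using Nat.le_induction with
    | base => exact le_rfl
    | succ i' _ ih => exact (hmono i' j).trans ih
  have hV : ∀ i j, Fi i j ≤ Fi 0 j := fun i j => hle' 0 i j (Nat.zero_le i)
  have hS : ∀ i, Sub d τ ν (trf d (Fi 0) g₁ g₂ (Fi i)) := fun i =>
    (hsub 0).trf h (hsub i) g₁ g₂
  have hT : ∀ i i' j, i ≤ i' →
      trf d (Fi 0) g₁ g₂ (Fi i') j ≤ trf d (Fi 0) g₁ g₂ (Fi i) j := fun i i' j hii =>
    Trunc_trf_mono (fun j => hle' i i' j hii) g₁ g₂ j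
  induction b, hab using Nat.le_induction with
  | base => exact TKb_refl _ k
  | succ b hab ih =>
    have h1 := ih fun i h2 h3 => hband i h2 (by omega)
    have h2 : TK d τ ν k (trf d (Fi 0) g₁ g₂ (Fi b)) (trf d (Fi 0) g₁ g₂ (Fi (b + 1))) 0 := by
      rcases hband b hab (Nat.lt_succ_self b) with h4 | ⟨h4, h5⟩
      · exact TK_band_out h (hsub 0) (hsub b) (hsub (b + 1)) (hmono b) (hV b) J hJ h12 h4 k
      · exact TK_band_in h (hsub 0) (hsub b) (hsub (b + 1)) (hmono b) (hV b) J hJ h12 h4 h5 k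
    have h6 := TK.trans h (hS (b + 1)) (fun j => hT b (b + 1) j (Nat.le_succ b))
      (fun j => hT a b j hab) h1 h2
    exact h6

/-- **Thin band between two slipping levels.** The levels `s i` go down from `a`, the levels `t i`
go down from `b`; all bands between `s (g₂ - g₁)` and `b`, except the band `i₀`, are exact. -/
theorem thin_band_slip (h : Ops d τ ν) (Fi : ℕ → ℕ → Submodule F E)
    (hsub : ∀ i, Sub d τ ν (Fi i)) (hmono : ∀ i j, Fi (i + 1) j ≤ Fi i j)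
    (J : ℕ) (hJ : ∀ j, J ≤ j → Fi 0 j = ⊥) {g₁ g₂ : ℕ} (h12 : g₁ < g₂) (s t : ℕ → ℕ)
    (hs : ∀ i, s (i + 1) ≤ s i) (ht : ∀ i, t (i + 1) ≤ t i) (i₀ : ℕ) (ha : s 0 ≤ i₀)
    (hb : i₀ < t (g₂ - g₁))
    (hslips : ∀ i < g₂ - g₁, Slip d (Fi (s i)) (Fi (s (i + 1))) g₁ g₂)
    (hslipt : ∀ i < g₂ - g₁, Slip d (Fi (t i)) (Fi (t (i + 1))) g₁ g₂)
    (hband : ∀ i, s (g₂ - g₁) ≤ i → i < t 0 → i ≠ i₀ →
      (∀ j, g₁ ≤ j → j ≤ g₂ → HK d (Fi i) (Fi (i + 1)) j 0) ∨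
      ((∀ j, (j ≤ g₁ ∨ g₂ ≤ j) → HK d (Fi i) (Fi (i + 1)) j 0) ∧
        ∀ k, TK d τ ν k (Fi i) (Fi (i + 1)) 0))
    (hi₀ : ∀ j, (j ≤ g₁ ∨ g₂ ≤ j) → HK d (Fi i₀) (Fi (i₀ + 1)) j 0) (k : ℕ) :
    TK d τ ν k (Fi i₀) (Fi (i₀ + 1)) 0 := by
  have hle' : ∀ i i' j, i ≤ i' → Fi i' j ≤ Fi i j := by
    intro i i' j hii
    induction i', hii using Nat.le_induction with
    | base => exact le_rfl
    | succ i' _ ih => exact (hmono i' j).trans ih
  have hs' : ∀ i, s i ≤ s 0 := fun i => by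
    induction i with
    | zero => exact le_rfl
    | succ i ih => exact (hs i).trans ih
  have ht' : ∀ i, t i ≤ t 0 := fun i => by
    induction i with
    | zero => exact le_rfl
    | succ i ih => exact (ht i).trans ih
  have hA : ∀ k, TK d τ ν k (trf d (Fi 0) g₁ g₂ (Fi (s 0))) (trun d (Fi 0) g₁) 0 :=
    slip_TK h (hsub 0) (fun i => Fi (s i)) (fun i => hsub _)
      (fun i j => hle' 0 _ j (Nat.zero_le _)) (fun i j => hle' _ _ j (hs i)) h12 hslips
      (chain_TK h Fi hsub hmono J hJ h12 _ _ (hs' _) fun i h1 h2 => hband i h1 (by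
        have h3 := ht' (g₂ - g₁)
        omega) (by omega))
  have hB : ∀ k, TK d τ ν k (trf d (Fi 0) g₁ g₂ (Fi (t 0))) (trun d (Fi 0) g₁) 0 :=
    slip_TK h (hsub 0) (fun i => Fi (t i)) (fun i => hsub _)
      (fun i j => hle' 0 _ j (Nat.zero_le _)) (fun i j => hle' _ _ j (ht i)) h12 hslipt
      (chain_TK h Fi hsub hmono J hJ h12 _ _ (ht' _) fun i h1 h2 => hband i (by
        have h3 := hs' (g₂ - g₁)
        omega) h2 (by omega))
  exact thin_band_TK h Fi hsub hmono J hJ h12 (s 0) (t 0) i₀ ha (hb.trans_le (ht' _)) hA hB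
    (fun i h1 h2 h3 => hband i ((hs' _).trans h1) h2 h3) hi₀ k

end Pool.Agent.H25.FU
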