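import Pool.Agent.H25.FU.Psub
import Pool.Agent.H75.TH.FixB

/-!
# Project FULL: localisation of the `P`-part

If the `P`-part of the band `(A, B)` is Tate exact, `P = 1 - (1 + h + … + h^(k-1)) / k`,
`h = γ^u`, then `h` acts as the identity on the cohomology of the band of the fixed grid.
-/

set_option autoImplicit false

namespace Pool.Agent.H25.FU

open Pool.Agent.H47.ST
open Pool.Agent.H75.TH (FixB_res_mem FixB_mem_Pv FixB_ext_mem)

variable {ι κ : Type*} [Fintype ι] [Fintype κ]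

/-- Localisation: a cochain of `G` supported on the fixed simplices whose coboundary lies in `H`
restricts to a coboundary of the fixed band. -/
theorem Pco_core {p : ℕ} [Fact p.Prime] {π : Equiv.Perm ι} {s : ι → κ}
    {L : AddSubgroup (ι → ℤ)} {L' : AddSubgroup (κ → ℤ)} (hs : Fold π s L L')
    {X A B : Set (ι → ℤ)} (hBL : Inv L B) (hBX : B ⊆ X)
    {G H : ℕ → Submodule (ZMod p) (Co ι (ZMod p))}
    (hG : ∀ j, G j ≤ co (F := ZMod p) L X A j) (hH : ∀ j, H j ≤ Pv (ZMod p) π L X A B j)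
    (h : TK (dX (F := ZMod p) X) (ta (ZMod p) π) (nu (ZMod p) π p) 0 G H 0) {j : ℕ}
    {x : Co ι (ZMod p)} (hx : x ∈ G (j + 1)) (hfix : ∀ σ, x σ ≠ 0 → ∀ v ∈ σ, v ∘ π = v)
    (hdx : dX X x ∈ H (j + 1 + 1)) :
    ∃ y ∈ co (F := ZMod p) L' (fo s B) (fo s A) j,
      cut (In (fo s B)) (TransN_res hs.surj (ZMod p) x) = dX (fo s B) y := by
  classical
  have h2 := RK_zero.1 h
  obtain ⟨y, hy, hyc⟩ := h2 (Pi.single (j + 1) x) (by
      rw [mem_sq]
      intro i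
      by_cases hi : i = j + 1
      · subst hi
        rw [Pi.single_eq_same]
        exact hx
      · rw [Pi.single_eq_of_ne hi]
        exact Submodule.zero_mem _) (by
      rw [mem_sq]
      intro i
      rw [TKb_single, TransN_the_supp hfix, smul_zero, Pi.single_zero, Pi.zero_apply, zero_add]
      by_cases hi : i = j + 1 + 1
      · subst hi
        rw [Pi.single_eq_same]
        exact hdx
      · rw [Pi.single_eq_of_ne hi]
        exact Submodule.zero_mem _)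
  rw [mem_sq] at hy hyc
  refine ⟨cut (In (fo s B)) (TransN_res hs.surj (ZMod p) (y j)), FixB_res_mem hs hBL
    (hG j (hy j)), ?_⟩
  funext σ'
  rw [dX_apply, cut_apply]
  by_cases h3 : In (fo s B) σ'
  · rw [if_pos h3, if_pos h3]
    have hfx : ∀ v ∈ σ'.map (TransN_em hs.surj), v ∘ π = v := (TransN_fixed hs _).2 ⟨σ', rfl⟩
    have h4 := TransN_Pv_zero (hH _ (hyc (j + 1))) hfx ((TransN_all hs.surj B σ').2 h3.2)
    rw [Pi.sub_apply, Pi.single_eq_same, Pi.sub_apply, sub_eq_zero, del_succ,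
      Pi.add_apply, Pi.smul_apply, TransN_the_fixed _ hfx, smul_zero, add_zero, TransN_dX,
      dX_apply, if_pos (TransN_In_mono (TransN_fo_mono s hBX) h3)] at h4
    have h5 : TransN_res hs.surj (ZMod p) x σ' = x (σ'.map (TransN_em hs.surj)) := rfl
    rw [h5, h4]
    refine Finset.sum_congr rfl fun v _ => ?_
    rw [cut_apply, if_pos (TransN_erase_In h3 v)]
  · rw [if_neg h3, if_neg h3]

omit [Fintype ι] [Fintype κ] in
theorem Pco_Tp_pow {F : Type*} [Field F] (γ : Equiv.Perm ι) (i : ℕ) (c : Co ι F) :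
    ((Tp γ) ^ i) c = Tp (γ ^ i) c := by
  funext σ
  exact Free_pow γ i c σ

omit [Fintype ι] [Fintype κ] in
theorem Pco_Tp_comm {F : Type*} [Field F] {γ π : Equiv.Perm ι} (h : γ * π = π * γ) (c : Co ι F) :
    Tp γ (Tp π c) = Tp π (Tp γ c) := by
  funext σ
  rw [Free_Tp, Free_Tp, Free_Tp, Free_Tp, ← Free_mul, ← Free_mul, h]

omit [Fintype ι] [Fintype κ] in
theorem Pco_Tp_ta {F : Type*} [Field F] {γ π : Equiv.Perm ι} (h : γ * π = π * γ) (c : Co ι F) :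
    Tp γ (ta F π c) = ta F π (Tp γ c) := by
  rw [Free_ta_apply, Free_ta_apply, map_sub, Pco_Tp_comm h]

omit [Fintype ι] [Fintype κ] in
theorem Pco_Tp_nu {F : Type*} [Field F] {γ π : Equiv.Perm ι} (h : γ * π = π * γ) (p : ℕ)
    (c : Co ι F) : Tp γ (nu F π p c) = nu F π p (Tp γ c) := by
  rw [Free_nu_apply, Free_nu_apply, map_sum]
  refine Finset.sum_congr rfl fun i _ => ?_
  rw [Pco_Tp_pow, Pco_Tp_pow]
  refine Pco_Tp_comm ?_ c
  exact (Commute.pow_right (h : Commute γ π) i)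

omit [Fintype ι] [Fintype κ] in
/-- invariance under a power -/
theorem Pco_PInv_pow {γ : Equiv.Perm ι} {X : Set (ι → ℤ)} (hX : PInv γ X) (i : ℕ) :
    PInv (γ ^ i) X := by
  induction i with
  | zero => exact fun v => Iff.rfl
  | succ i ih =>
    intro v
    have h1 : v ∘ ⇑(γ ^ (i + 1)) = (v ∘ ⇑(γ ^ i)) ∘ ⇑γ := by
      rw [pow_succ]
      rfl
    rw [h1, ih v, hX (v ∘ ⇑(γ ^ i))]

omit [Fintype ι] [Fintype κ] in
theorem Pco_fix_pow {γ : Equiv.Perm ι} {l : ι → ℤ} (hl : l ∘ γ = l) (i : ℕ) :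
    l ∘ ⇑(γ ^ i) = l := Free_pow_fix hl i

omit [Fintype ι] [Fintype κ] in
/-- the operator on the fixed grid -/
theorem Pco_res_Tp {F : Type*} [Field F] {s : ι → κ} (hs : Function.Surjective s)
    {γ : Equiv.Perm ι} {γ' : Equiv.Perm κ} (h : ∀ i, s (γ i) = γ' (s i)) (c : Co ι F) :
    TransN_res hs F (Tp γ c) = Tp γ' (TransN_res hs F c) := by
  funext σ
  change c ((σ.map (TransN_em hs)).map (pe γ).toEmbedding) =
    c ((σ.map (pe γ').toEmbedding).map (TransN_em hs))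
  congr 1
  rw [Finset.map_map, Finset.map_map]
  congr 1
  ext y i
  change y (s (γ i)) = y (γ' (s i))
  rw [h]

/-- **Localisation of the `P`-part.** -/
theorem fixed_slip {p : ℕ} [Fact p.Prime] {π γ : Equiv.Perm ι} {γ' : Equiv.Perm κ} {s : ι → κ}
    {L : AddSubgroup (ι → ℤ)} {L' : AddSubgroup (κ → ℤ)} (hc : Cyc π p L) (hs : Fold π s L L')
    {X A B : Set (ι → ℤ)} (hX : PInv π X) (hA : PInv π A) (hB : PInv π B) (hXL : Inv L X)
    (hAL : Inv L A) (hBL : Inv L B) (hAB : A ⊆ B) (hBX : B ⊆ X)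
    (hγL : ∀ l ∈ L, l ∘ γ = l) (hγπ : γ * π = π * γ) (hXγ : PInv γ X) (hAγ : PInv γ A)
    (hBγ : PInv γ B) {u k : ℕ} (hk : (k : ZMod p) ≠ 0) (hγk : γ ^ (u * k) = 1)
    (hγ' : ∀ i, s ((γ ^ u) i) = γ' (s i))
    (h : ∀ m, TK (dX (F := ZMod p) X) (ta (ZMod p) π) (nu (ZMod p) π p) m
      (PS (Pk ((Tp (F := ZMod p) γ) ^ u) k) (co (F := ZMod p) L X A))
      (PS (Pk ((Tp (F := ZMod p) γ) ^ u) k) (co (F := ZMod p) L X B)) 0) (j : ℕ) :
    ∀ c ∈ co (F := ZMod p) L' (fo s B) (fo s A) (j + 1), dX (fo s B) c = 0 →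
      ∃ y ∈ co (F := ZMod p) L' (fo s B) (fo s A) j, c - Tp γ' c = dX (fo s B) y := by
  classical
  intro c hcm hdc
  have hT : ∀ x : Co ι (ZMod p), ((Tp (F := ZMod p) γ) ^ (u * k)) x = x := by
    intro x
    rw [Pco_Tp_pow, hγk]
    funext σ
    rw [Free_Tp, Free_one]
  have hP : PC (dX (F := ZMod p) X) (ta (ZMod p) π) (nu (ZMod p) π p) (Pk ((Tp (F := ZMod p) γ) ^ u) k) :=
    PC_Pk (fun x => (Free_dT hXγ x).symm) (Pco_Tp_ta hγπ) (Pco_Tp_nu hγπ p) u k hk hT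
  have hPA : PSt (Pk ((Tp (F := ZMod p) γ) ^ u) k) (co (F := ZMod p) L X A) :=
    PSt_Pk (fun j x hx => Free_T_mem hγL hXγ hAγ hx) u k
  have hPB : PSt (Pk ((Tp (F := ZMod p) γ) ^ u) k) (co (F := ZMod p) L X B) :=
    PSt_Pk (fun j x hx => Free_T_mem hγL hXγ hBγ hx) u k
  have hvz : ∀ x ∈ vz (ZMod p) π, Tp γ x ∈ vz (ZMod p) π := by
    intro x hx σ hσ
    rw [Free_Tp]
    refine hx _ fun v hv => ?_
    obtain ⟨w, hw, rfl⟩ := Free_mem.1 hv
    have h1 : (w ∘ ⇑γ) ∘ ⇑π = (w ∘ ⇑π) ∘ ⇑γ := by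
      have h2 : w ∘ ⇑(γ * π) = w ∘ ⇑(π * γ) := by rw [hγπ]
      exact h2
    rw [h1, hσ w hw]
  have hPv : PSt (Pk ((Tp (F := ZMod p) γ) ^ u) k) (Pv (ZMod p) π L X A B) := by
    refine PSt_Pk (fun j x hx => ?_) u k
    obtain ⟨u, hu, y, hy, rfl⟩ := Submodule.mem_sup.1 hx
    rw [map_add]
    exact Submodule.add_mem_sup (Free_T_mem hγL hXγ hBγ hu)
      ⟨Free_T_mem hγL hXγ hAγ hy.1, hvz y hy.2⟩
  have h1 := TK.quot (Cyc_ops hc hX) (PS_sub hP (Cyc_sub hc hX hB hXL))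
    (fun j => PS_mono _ le_sup_left) (fun j => PS_mono _ (Loc_Pv_le hAB j))
    (TK_PS hP hPB hPv (free_TK hc hX hA hB hXL hAL hBL hAB hBX (0 + 1))) (h 0)
  -- the extension
  set Φ : Co ι (ZMod p) := TransN_ext hs.surj (ZMod p) c with hΦd
  have hΦ : Φ ∈ co (F := ZMod p) L X A (j + 1) := FixB_ext_mem hs hBX hcm
  have hfix : ∀ σ, Φ σ ≠ 0 → ∀ v ∈ σ, v ∘ π = v := by
    intro σ hσ
    obtain ⟨σ', h3, _⟩ := TransN_ext_ne hs.surj hσ
    exact (TransN_fixed hs σ).2 ⟨σ', h3⟩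
  have hres : TransN_res hs.surj (ZMod p) Φ = c := by
    funext τ
    exact TransN_ext_map hs.surj c τ
  have hγp : γ ^ u * π = π * γ ^ u := (Commute.pow_left (hγπ : Commute γ π) u)
  set x : Co ι (ZMod p) := Φ - ((Tp γ) ^ u) Φ with hxd
  have hTΦ : ((Tp (F := ZMod p) γ) ^ u) Φ ∈ co (F := ZMod p) L X A (j + 1) :=
    PSt_pow (fun j x hx => Free_T_mem hγL hXγ hAγ hx) u (j + 1) Φ hΦ
  have hxm : x ∈ PS (Pk ((Tp (F := ZMod p) γ) ^ u) k) (co (F := ZMod p) L X A) (j + 1) := by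
    refine mem_PS.2 ⟨Submodule.sub_mem _ hΦ hTΦ, Pk_sub (fun y => ?_) Φ⟩
    rw [← pow_mul]
    exact hT y
  have hxfix : ∀ σ, x σ ≠ 0 → ∀ v ∈ σ, v ∘ π = v := by
    intro σ hσ v hv
    by_cases h3 : Φ σ = 0
    · have h4 : ((Tp (F := ZMod p) γ) ^ u) Φ σ ≠ 0 := by
        intro h4
        apply hσ
        rw [hxd, Pi.sub_apply, h3, h4, sub_zero]
      rw [Pco_Tp_pow, Free_Tp] at h4
      have h5 := hfix _ h4 (v ∘ ⇑(γ ^ u)) (Free_mem.2 ⟨v, hv, rfl⟩)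
      have h6 : (v ∘ ⇑(γ ^ u)) ∘ ⇑π = (v ∘ ⇑π) ∘ ⇑(γ ^ u) := by
        have h7 : v ∘ ⇑(γ ^ u * π) = v ∘ ⇑(π * γ ^ u) := by rw [hγp]
        exact h7
      rw [h6] at h5
      funext i
      have h7 := congrFun h5 ((γ ^ u).symm i)
      simpa using h7
    · exact hfix σ h3 v hv
  -- the coboundary vanishes on the fixed simplices in `B`
  have hdΦ : ∀ σ, (∀ v ∈ σ, v ∘ π = v) → (∀ v ∈ σ, v ∈ B) → dX X Φ σ = 0 := by
    intro σ hσ hσB
    obtain ⟨σ', rfl⟩ := (TransN_fixed hs σ).1 hσ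
    rw [TransN_dX, hres, dX_apply]
    by_cases h3 : In (fo s X) σ'
    · rw [if_pos h3]
      have h4 : In (fo s B) σ' := ⟨h3.1, (TransN_all hs.surj B σ').1 hσB⟩
      have h5 := congrFun hdc σ'
      rw [dX_apply, if_pos h4] at h5
      exact h5
    · rw [if_neg h3]
  have hdx : dX X x ∈ PS (Pk ((Tp (F := ZMod p) γ) ^ u) k) (Pv (ZMod p) π L X A B) (j + 1 + 1) := by
    refine mem_PS.2 ⟨FixB_mem_Pv hBL (dX_mem hXL (mem_PS.1 hxm).1) fun σ hσ hσB => ?_, ?_⟩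
    · have h3 : dX X x σ = dX X Φ σ - dX X Φ (Free_mp (γ ^ u) σ) := by
        rw [hxd, map_sub, Pco_Tp_pow, Free_dT (Pco_PInv_pow hXγ u)]
        rfl
      rw [h3, hdΦ σ hσ hσB, hdΦ (Free_mp (γ ^ u) σ), sub_zero]
      · intro v hv
        obtain ⟨w, hw, rfl⟩ := Free_mem.1 hv
        have h6 : (w ∘ ⇑(γ ^ u)) ∘ ⇑π = (w ∘ ⇑π) ∘ ⇑(γ ^ u) := by
          have h7 : w ∘ ⇑(γ ^ u * π) = w ∘ ⇑(π * γ ^ u) := by rw [hγp]
          exact h7
        rw [h6, hσ w hw]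
      · exact (Free_all (Pco_PInv_pow hBγ u)).2 hσB
    · rw [hP.pd, (mem_PS.1 hxm).2]
  obtain ⟨y, hy, hyx⟩ := Pco_core hs hBL hBX (fun j => PS_le _ _ j) (fun j => PS_le _ _ j) h1 hxm
    hxfix hdx
  refine ⟨y, hy, ?_⟩
  rw [← hyx]
  have hr : TransN_res hs.surj (ZMod p) x = c - Tp γ' c := by
    rw [hxd, map_sub, hres, Pco_Tp_pow, Pco_res_Tp hs.surj hγ', hres]
  rw [hr]
  funext σ
  rw [cut_apply]
  by_cases h3 : In (fo s B) σ
  · rw [if_pos h3]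
  · rw [if_neg h3]
    have h4 : c σ = 0 := by
      by_contra h5
      exact h3 (hcm.2 σ h5).1
    have hfo : PInv γ' (fo s B) := by
      intro v
      change v ∘ s ∈ B ↔ (v ∘ ⇑γ') ∘ s ∈ B
      have h5 : (v ∘ ⇑γ') ∘ s = (v ∘ s) ∘ ⇑(γ ^ u) := by
        funext i
        change v (γ' (s i)) = v (s ((γ ^ u) i))
        rw [hγ']
      rw [h5]
      exact Pco_PInv_pow hBγ u (v ∘ s)
    have h5 : Tp γ' c σ = 0 := by
      by_contra h6
      rw [Free_Tp] at h6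
      exact h3 ((Free_In hfo).1 (hcm.2 _ h6).1)
    rw [Pi.sub_apply, h4, h5, sub_zero]

end Pool.Agent.H25.FU
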